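import Pool.Agent.H41.BDFP.BLK

attribute [local instance] Pool.Agent.H33.BDFP.NV.instNACG Pool.Agent.H33.BDFP.NV.instModule
  Pool.Agent.H33.BDFP.NV.instNormedSpace Pool.Agent.H33.BDFP.NV.instFD
  Pool.Agent.H33.BDFP.NV.instComplete

/-!
Module ACUT of the BDFP project: one cut sequence for all the operators.
-/

open scoped ENNReal
open Pool.Agent.H33.BDFP

noncomputable section

namespace Pool.Agent.H41.BDFP

section gen

variable {p q : ℝ≥0∞} [Fact (1 ≤ p)] [Fact (1 ≤ q)] {E F : ℕ → Type}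
  [∀ n, NormedAddCommGroup (E n)] [∀ n, NormedSpace ℂ (E n)]
  [∀ n, NormedAddCommGroup (F n)] [∀ n, NormedSpace ℂ (F n)]

/-- the two corner norms -/
def fT (T : lp E p →L[ℂ] lp F q) (n N : ℕ) : ℝ :=
  ‖trunc q {i | N ≤ i} ∘L T ∘L trunc p {i | i < n}‖ +
    ‖trunc q {i | i < n} ∘L T ∘L trunc p {i | N ≤ i}‖

/-- the two tail norms -/
def gT (T : lp E p →L[ℂ] lp F q) (N : ℕ) : ℝ :=
  ‖trunc q {i | N ≤ i} ∘L T‖ + ‖T ∘L trunc p {i | N ≤ i}‖

lemma fT_tendsto (hcut : CutStmt) (hp1 : 1 < p) (hp : p ≠ ∞) (hq : q ≠ ∞)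
    [∀ n, FiniteDimensional ℂ (E n)] [∀ n, FiniteDimensional ℂ (F n)]
    (T : lp E p →L[ℂ] lp F q) (n : ℕ) :
    Filter.Tendsto (fun N => fT T n N) Filter.atTop (nhds 0) := by
  obtain ⟨h1, h2, _⟩ := hcut p q hp1 hp hq E F T
  have := (h1 n).add (h2 n)
  rwa [add_zero] at this

lemma gT_tendsto (hcut : CutStmt) (hp1 : 1 < p) (hp : p ≠ ∞) (hq : q ≠ ∞)
    [∀ n, FiniteDimensional ℂ (E n)] [∀ n, FiniteDimensional ℂ (F n)]
    (T : lp E p →L[ℂ] lp F q) (hT : IsCompactOperator (⇑T)) :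
    Filter.Tendsto (fun N => gT T N) Filter.atTop (nhds 0) := by
  obtain ⟨_, _, h3⟩ := hcut p q hp1 hp hq E F T
  have := (h3 hT).1.add (h3 hT).2
  rwa [add_zero] at this

lemma cut1_of (hblk : BlkStmt) (T : lp E p →L[ℂ] lp F q) (N : ℕ → ℕ) (hN : StrictMono N)
    (hN0 : N 0 = 0) (h : ∃ j₀ : ℕ, ∀ j, j₀ ≤ j → fT T (N j) (N (j + 1)) ≤ (1 / 4 : ℝ) ^ j) :
    Cut1 N T := by
  obtain ⟨m, hm⟩ := h
  refine (hblk p q E F T N m hN hN0 (fun j hj => ?_) (fun j hj => ?_)).1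
  · have := hm j hj
    unfold fT at this
    linarith [norm_nonneg (trunc q {i | i < N j} ∘L T ∘L trunc p {i | N (j + 1) ≤ i})]
  · have := hm j hj
    unfold fT at this
    linarith [norm_nonneg (trunc q {i | N (j + 1) ≤ i} ∘L T ∘L trunc p {i | i < N j})]

lemma cut2_of (hblk : BlkStmt) (T : lp E p →L[ℂ] lp F q) (N : ℕ → ℕ) (hN : StrictMono N)
    (hN0 : N 0 = 0) (h : ∃ j₀ : ℕ, ∀ j, j₀ ≤ j → fT T (N j) (N (j + 1)) ≤ (1 / 4 : ℝ) ^ j ∧
      gT T (N (j + 1)) ≤ (1 / 4 : ℝ) ^ j) :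
    Cut2 N T := by
  obtain ⟨m, hm⟩ := h
  refine (hblk p q E F T N m hN hN0 (fun j hj => ?_) (fun j hj => ?_)).2 (fun j hj => ⟨?_, ?_⟩)
  · have := (hm j hj).1
    unfold fT at this
    linarith [norm_nonneg (trunc q {i | i < N j} ∘L T ∘L trunc p {i | N (j + 1) ≤ i})]
  · have := (hm j hj).1
    unfold fT at this
    linarith [norm_nonneg (trunc q {i | N (j + 1) ≤ i} ∘L T ∘L trunc p {i | i < N j})]
  · have := (hm j hj).2
    unfold gT at this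
    linarith [norm_nonneg (T ∘L trunc p {i | N (j + 1) ≤ i})]
  · have := (hm j hj).2
    unfold gT at this
    linarith [norm_nonneg (trunc q {i | N (j + 1) ≤ i} ∘L T)]

variable {M : Set ℂ} [CompactSpace M]

/-- the commutator -/
def cmt (T : lp E p →L[ℂ] lp F q) (ρ : Rep M (lp E p)) (σ : Rep M (lp F q)) (a : C(M, ℂ)) :
    lp E p →L[ℂ] lp F q :=
  T ∘L ρ.hom a - σ.hom a ∘L T

/-- a representation commuting with the truncations -/
def Dg (ρ : Rep M (lp E p)) : Prop :=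
  ρ.Contr ∧ ∀ (a : C(M, ℂ)) (S : Set ℕ) (x : lp E p), trunc p S (ρ.hom a x) = ρ.hom a (trunc p S x)

lemma bN_cmt (T : lp E p →L[ℂ] lp F q) (ρ : Rep M (lp E p)) (σ : Rep M (lp F q)) (hρ : Dg ρ)
    (hσ : Dg σ) (N : ℕ → ℕ) (a : C(M, ℂ)) (i j : ℕ) :
    bN N (cmt T ρ σ a) i j ≤ 2 * ‖a‖ * bN N T i j := by
  have h : trunc q (H33.BDFP.blk N i) ∘L cmt T ρ σ a ∘L trunc p (H33.BDFP.blk N j) =
      (trunc q (H33.BDFP.blk N i) ∘L T ∘L trunc p (H33.BDFP.blk N j)) ∘L ρ.hom a -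
      σ.hom a ∘L (trunc q (H33.BDFP.blk N i) ∘L T ∘L trunc p (H33.BDFP.blk N j)) := by
    refine ContinuousLinearMap.ext fun x => ?_
    change trunc q _ (T (ρ.hom a (trunc p _ x)) - σ.hom a (T (trunc p _ x))) =
      trunc q _ (T (trunc p _ (ρ.hom a x))) - σ.hom a (trunc q _ (T (trunc p _ x)))
    rw [map_sub, hρ.2, hσ.2]
  unfold bN
  rw [h]
  refine (norm_sub_le _ _).trans ?_
  have h1 := (ContinuousLinearMap.opNorm_comp_le (trunc q (H33.BDFP.blk N i) ∘L T ∘L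
    trunc p (H33.BDFP.blk N j)) (ρ.hom a)).trans (mul_le_mul_of_nonneg_left (hρ.1 a) (norm_nonneg _))
  have h2 := (ContinuousLinearMap.opNorm_comp_le (σ.hom a) (trunc q (H33.BDFP.blk N i) ∘L T ∘L
    trunc p (H33.BDFP.blk N j))).trans (mul_le_mul_of_nonneg_right (hσ.1 a) (norm_nonneg _))
  linarith

lemma bN_add (T T' : lp E p →L[ℂ] lp F q) (N : ℕ → ℕ) (i j : ℕ) :
    bN N (T + T') i j ≤ bN N T i j + bN N T' i j := by
  have h : trunc q (H33.BDFP.blk N i) ∘L (T + T') ∘L trunc p (H33.BDFP.blk N j) =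
      trunc q (H33.BDFP.blk N i) ∘L T ∘L trunc p (H33.BDFP.blk N j) +
      trunc q (H33.BDFP.blk N i) ∘L T' ∘L trunc p (H33.BDFP.blk N j) := by
    refine ContinuousLinearMap.ext fun x => ?_
    change trunc q _ (T (trunc p _ x) + T' (trunc p _ x)) = _
    rw [map_add]
    rfl
  unfold bN
  rw [h]
  exact norm_add_le _ _

lemma cmt_split (T : lp E p →L[ℂ] lp F q) (ρ : Rep M (lp E p)) (σ : Rep M (lp F q))
    (a b : C(M, ℂ)) : cmt T ρ σ a = cmt T ρ σ b + cmt T ρ σ (a - b) := by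
  refine ContinuousLinearMap.ext fun x => ?_
  change T (ρ.hom a x) - σ.hom a (T x) = (T (ρ.hom b x) - σ.hom b (T x)) +
    (T (ρ.hom (a - b) x) - σ.hom (a - b) (T x))
  rw [map_sub, map_sub]
  change _ = (T (ρ.hom b x) - σ.hom b (T x)) + (T (ρ.hom a x - ρ.hom b x) -
    (σ.hom a (T x) - σ.hom b (T x)))
  rw [map_sub]
  abel

lemma cut_cmt (T : lp E p →L[ℂ] lp F q) (ρ : Rep M (lp E p)) (σ : Rep M (lp F q)) (hρ : Dg ρ)
    (hσ : Dg σ) (N : ℕ → ℕ) (hT : Cut1 N T) (d : ℕ → C(M, ℂ)) (hd : DenseRange d)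
    (hc : ∀ m, Cut2 N (cmt T ρ σ (d m))) (a : C(M, ℂ)) :
    Cut1 N (cmt T ρ σ a) ∧ Cut2 N (cmt T ρ σ a) := by
  obtain ⟨⟨C, hr, hcol⟩, hsum⟩ := hT
  have hrow : ∀ (b : C(M, ℂ)) i, Summable (bN N (cmt T ρ σ b) i) ∧
      ∑' j, bN N (cmt T ρ σ b) i j ≤ 2 * ‖b‖ * C := by
    intro b i
    have s1 : Summable (fun j => 2 * ‖b‖ * bN N T i j) := (hr i).1.mul_left _
    have s2 : Summable (bN N (cmt T ρ σ b) i) :=
      Summable.of_nonneg_of_le (fun j => bN_nonneg _ _ _ _) (fun j => bN_cmt T ρ σ hρ hσ N b i j) s1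
    refine ⟨s2, (s2.tsum_le_tsum (fun j => bN_cmt T ρ σ hρ hσ N b i j) s1).trans ?_⟩
    rw [tsum_mul_left]
    exact mul_le_mul_of_nonneg_left (hr i).2 (by positivity)
  have hcl : ∀ (b : C(M, ℂ)) j, Summable (fun i => bN N (cmt T ρ σ b) i j) ∧
      ∑' i, bN N (cmt T ρ σ b) i j ≤ 2 * ‖b‖ * C := by
    intro b j
    have s1 : Summable (fun i => 2 * ‖b‖ * bN N T i j) := (hcol j).1.mul_left _
    have s2 : Summable (fun i => bN N (cmt T ρ σ b) i j) :=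
      Summable.of_nonneg_of_le (fun i => bN_nonneg _ _ _ _) (fun i => bN_cmt T ρ σ hρ hσ N b i j) s1
    refine ⟨s2, (s2.tsum_le_tsum (fun i => bN_cmt T ρ σ hρ hσ N b i j) s1).trans ?_⟩
    rw [tsum_mul_left]
    exact mul_le_mul_of_nonneg_left (hcol j).2 (by positivity)
  refine ⟨⟨⟨2 * ‖a‖ * C, hrow a, hcl a⟩, ?_⟩, ?_⟩
  · refine Summable.of_nonneg_of_le ?_ ?_ (hsum.mul_left (2 * ‖a‖))
    · intro x
      split_ifs
      · exact le_rfl
      · exact bN_nonneg _ _ _ _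
    · intro x
      split_ifs
      · simp
      · exact bN_cmt T ρ σ hρ hσ N a _ _
  · intro ε hε
    have hC0 : 0 ≤ C := (tsum_nonneg fun j => bN_nonneg N T 0 j).trans (hr 0).2
    obtain ⟨m, hm⟩ := Metric.denseRange_iff.1 hd a (ε / (4 * (C + 1))) (by positivity)
    obtain ⟨j₀, h1, h2⟩ := hc m (ε / 2) (by positivity)
    have h3 : 2 * ‖a - d m‖ * C ≤ ε / 2 := by
      rw [dist_eq_norm] at hm
      have h4 : ‖a - d m‖ * (4 * (C + 1)) ≤ ε := by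
        rw [lt_div_iff₀ (by positivity)] at hm
        exact hm.le
      nlinarith [norm_nonneg (a - d m)]
    refine ⟨j₀, fun i hi => ?_, fun j hj => ?_⟩
    · have s1 := (hrow (d m) i).1
      have s2 := (hrow (a - d m) i).1
      calc ∑' j, bN N (cmt T ρ σ a) i j
          ≤ ∑' j, (bN N (cmt T ρ σ (d m)) i j + bN N (cmt T ρ σ (a - d m)) i j) := by
            refine (hrow a i).1.tsum_le_tsum (fun j => ?_) (s1.add s2)
            rw [cmt_split T ρ σ a (d m)]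
            exact bN_add _ _ _ _ _
        _ = ∑' j, bN N (cmt T ρ σ (d m)) i j + ∑' j, bN N (cmt T ρ σ (a - d m)) i j :=
            s1.tsum_add s2
        _ ≤ ε / 2 + 2 * ‖a - d m‖ * C := add_le_add (h1 i hi) (hrow _ i).2
        _ ≤ ε := by linarith
    · have s1 := (hcl (d m) j).1
      have s2 := (hcl (a - d m) j).1
      calc ∑' i, bN N (cmt T ρ σ a) i j
          ≤ ∑' i, (bN N (cmt T ρ σ (d m)) i j + bN N (cmt T ρ σ (a - d m)) i j) := by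
            refine (hcl a j).1.tsum_le_tsum (fun i => ?_) (s1.add s2)
            rw [cmt_split T ρ σ a (d m)]
            exact bN_add _ _ _ _ _
        _ = ∑' i, bN N (cmt T ρ σ (d m)) i j + ∑' i, bN N (cmt T ρ σ (a - d m)) i j :=
            s1.tsum_add s2
        _ ≤ ε / 2 + 2 * ‖a - d m‖ * C := add_le_add (h2 j hj) (hcl _ j).2
        _ ≤ ε := by linarith

end gen

lemma diagRep_Dg {M : Set ℂ} [CompactSpace M] {r : ℕ → ℕ} (v : ∀ n, Fin (r n) → M) (p : ℝ≥0∞)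
    [Fact (1 ≤ p)] : Dg (diagRep v p) := by
  refine ⟨fun a => lp.norm_mapCLM_le p _ (norm_nonneg a) (fun i => eucRep_contr (v i) a), ?_⟩
  classical
  intro a S x
  refine lp.ext (funext fun i => ?_)
  rw [trunc_apply]
  change (if i ∈ S then (eucRep (v i)).hom a (x i) else 0) =
    (eucRep (v i)).hom a (trunc p S x i)
  rw [trunc_apply]
  split_ifs
  · rfl
  · rw [map_zero]

theorem acut (hcut : CutStmt) (hseq : CutSeqStmt) (hblk : BlkStmt) : ACutStmt := by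
  intro p _ hp2 hp M _ r r' v v' e e₂ A B he he₂ hA
  have h21 : (1 : ℝ≥0∞) < 2 := by exact_mod_cast (show (1 : ℕ) < 2 by norm_num)
  have hp1 : 1 < p := h21.trans hp2
  have h2 : (2 : ℝ≥0∞) ≠ ∞ := ENNReal.ofNat_ne_top
  let d : ℕ → C(M, ℂ) := TopologicalSpace.denseSeq C(M, ℂ)
  have hd : DenseRange d := TopologicalSpace.denseRange_denseSeq _
  let Ce : ℕ → (ZP r p →L[ℂ] ZP r p) := fun m => cmt e (diagRep v p) (diagRep v p) (d m)
  let C2 : ℕ → (ZP r 2 →L[ℂ] ZP r 2) := fun m => cmt e₂ (diagRep v 2) (diagRep v 2) (d m)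
  let CA : ℕ → (ZP r 2 →L[ℂ] ZP r' 2) := fun m => cmt A (diagRep v 2) (diagRep v' 2) (d m)
  let I := Unit ⊕ (Unit ⊕ (Unit ⊕ (Unit ⊕ (ℕ ⊕ (ℕ ⊕ ℕ)))))
  let f : I → ℕ → ℕ → ℝ :=
    Sum.elim (fun _ => fT e) (Sum.elim (fun _ => fT e₂) (Sum.elim (fun _ => fT A)
      (Sum.elim (fun _ => fT B) (Sum.elim (fun m => fT (Ce m)) (Sum.elim (fun m => fT (C2 m))
        (fun m => fT (CA m)))))))
  let g : I → ℕ → ℝ :=
    Sum.elim (fun _ _ => 0) (Sum.elim (fun _ _ => 0) (Sum.elim (fun _ _ => 0)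
      (Sum.elim (fun _ _ => 0) (Sum.elim (fun m => gT (Ce m)) (Sum.elim (fun m => gT (C2 m))
        (fun m => gT (CA m)))))))
  have hf : ∀ m n, Filter.Tendsto (fun N => f m n N) Filter.atTop (nhds 0) := by
    intro m n
    rcases m with _ | _ | _ | _ | m | m | m
    · exact fT_tendsto hcut hp1 hp hp e n
    · exact fT_tendsto hcut h21 h2 h2 e₂ n
    · exact fT_tendsto hcut h21 h2 h2 A n
    · exact fT_tendsto hcut h21 h2 h2 B n
    · exact fT_tendsto hcut hp1 hp hp (Ce m) n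
    · exact fT_tendsto hcut h21 h2 h2 (C2 m) n
    · exact fT_tendsto hcut h21 h2 h2 (CA m) n
  have hg : ∀ m, Filter.Tendsto (fun N => g m N) Filter.atTop (nhds 0) := by
    intro m
    rcases m with _ | _ | _ | _ | m | m | m
    · exact tendsto_const_nhds
    · exact tendsto_const_nhds
    · exact tendsto_const_nhds
    · exact tendsto_const_nhds
    · exact gT_tendsto hcut hp1 hp hp (Ce m) (he.2 (d m))
    · exact gT_tendsto hcut h21 h2 h2 (C2 m) (he₂.2 (d m))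
    · exact gT_tendsto hcut h21 h2 h2 (CA m) (hA (d m))
  obtain ⟨N, hN, hN0, hNm⟩ := hseq I f g hf hg
  have ce : Cut1 N e := cut1_of hblk e N hN hN0 (by
    obtain ⟨j₀, hj⟩ := hNm (Sum.inl ())
    exact ⟨j₀, fun j h => (hj j h).1⟩)
  have ce₂ : Cut1 N e₂ := cut1_of hblk e₂ N hN hN0 (by
    obtain ⟨j₀, hj⟩ := hNm (Sum.inr (Sum.inl ()))
    exact ⟨j₀, fun j h => (hj j h).1⟩)
  have cA : Cut1 N A := cut1_of hblk A N hN hN0 (by
    obtain ⟨j₀, hj⟩ := hNm (Sum.inr (Sum.inr (Sum.inl ())))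
    exact ⟨j₀, fun j h => (hj j h).1⟩)
  have cB : Cut1 N B := cut1_of hblk B N hN hN0 (by
    obtain ⟨j₀, hj⟩ := hNm (Sum.inr (Sum.inr (Sum.inr (Sum.inl ()))))
    exact ⟨j₀, fun j h => (hj j h).1⟩)
  refine ⟨N, hN, hN0, ce, ce₂, cA, cB, ?_, ?_, ?_⟩
  · exact cut_cmt e (diagRep v p) (diagRep v p) (diagRep_Dg v p) (diagRep_Dg v p) N ce d hd
      fun m => cut2_of hblk (Ce m) N hN hN0 (hNm (Sum.inr (Sum.inr (Sum.inr (Sum.inr (Sum.inl m))))))
  · exact cut_cmt e₂ (diagRep v 2) (diagRep v 2) (diagRep_Dg v 2) (diagRep_Dg v 2) N ce₂ d hd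
      fun m => cut2_of hblk (C2 m) N hN hN0
        (hNm (Sum.inr (Sum.inr (Sum.inr (Sum.inr (Sum.inr (Sum.inl m)))))))
  · exact cut_cmt A (diagRep v 2) (diagRep v' 2) (diagRep_Dg v 2) (diagRep_Dg v' 2) N cA d hd
      fun m => cut2_of hblk (CA m) N hN hN0
        (hNm (Sum.inr (Sum.inr (Sum.inr (Sum.inr (Sum.inr (Sum.inr m)))))))

end Pool.Agent.H41.BDFP
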