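import Pool.Agent.H33.BDFP.Stmts

attribute [local instance] Pool.Agent.H33.BDFP.NV.instNACG Pool.Agent.H33.BDFP.NV.instModule
  Pool.Agent.H33.BDFP.NV.instNormedSpace Pool.Agent.H33.BDFP.NV.instFD
  Pool.Agent.H33.BDFP.NV.instComplete

/-!
Module BLK of the BDFP project: norms of the blocks.
-/

open scoped ENNReal
open Pool.Agent.H33.BDFP

noncomputable section

namespace Pool.Agent.H41.BDFP

section trunc

variable {ι : Type} {E : ι → Type} [∀ i, NormedAddCommGroup (E i)] [∀ i, NormedSpace ℂ (E i)]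
  (p : ℝ≥0∞) [Fact (1 ≤ p)]

open Classical in
lemma trunc_apply (S : Set ι) (x : lp E p) (i : ι) :
    trunc p S x i = if i ∈ S then x i else 0 := by
  change (if i ∈ S then ContinuousLinearMap.id ℂ (E i) else 0) (x i) = _
  split_ifs <;> rfl

lemma norm_trunc_le (S : Set ι) : ‖(trunc p S : lp E p →L[ℂ] lp E p)‖ ≤ 1 := by
  unfold trunc
  exact lp.norm_mapCLM_le p _ zero_le_one _

lemma trunc_comp (S S' : Set ι) :
    (trunc p S : lp E p →L[ℂ] lp E p) ∘L trunc p S' = trunc p (S ∩ S') := by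
  classical
  refine ContinuousLinearMap.ext fun x => lp.ext (funext fun i => ?_)
  change trunc p S (trunc p S' x) i = _
  rw [trunc_apply, trunc_apply, trunc_apply]
  by_cases h1 : i ∈ S <;> by_cases h2 : i ∈ S' <;> simp [h1, h2]

lemma trunc_comp_of_subset {S S' : Set ι} (h : S ⊆ S') :
    (trunc p S : lp E p →L[ℂ] lp E p) ∘L trunc p S' = trunc p S := by
  rw [trunc_comp, Set.inter_eq_left.2 h]

lemma trunc_comp_of_subset' {S S' : Set ι} (h : S ⊆ S') :
    (trunc p S' : lp E p →L[ℂ] lp E p) ∘L trunc p S = trunc p S := by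
  rw [trunc_comp, Set.inter_eq_right.2 h]

end trunc

section blocks

variable {p q : ℝ≥0∞} [Fact (1 ≤ p)] [Fact (1 ≤ q)] {E F : ℕ → Type}
  [∀ n, NormedAddCommGroup (E n)] [∀ n, NormedSpace ℂ (E n)]
  [∀ n, NormedAddCommGroup (F n)] [∀ n, NormedSpace ℂ (F n)]

lemma norm_left_le (T : lp E p →L[ℂ] lp F q) (S : Set ℕ) : ‖trunc q S ∘L T‖ ≤ ‖T‖ := by
  refine (ContinuousLinearMap.opNorm_comp_le _ _).trans ?_
  calc ‖(trunc q S : lp F q →L[ℂ] lp F q)‖ * ‖T‖ ≤ 1 * ‖T‖ :=
        mul_le_mul_of_nonneg_right (norm_trunc_le q S) (norm_nonneg _)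
    _ = ‖T‖ := one_mul _

lemma norm_right_le (T : lp E p →L[ℂ] lp F q) (S : Set ℕ) : ‖T ∘L trunc p S‖ ≤ ‖T‖ := by
  refine (ContinuousLinearMap.opNorm_comp_le _ _).trans ?_
  calc ‖T‖ * ‖(trunc p S : lp E p →L[ℂ] lp E p)‖ ≤ ‖T‖ * 1 :=
        mul_le_mul_of_nonneg_left (norm_trunc_le p S) (norm_nonneg _)
    _ = ‖T‖ := mul_one _

lemma norm_both_le (T : lp E p →L[ℂ] lp F q) (S S' : Set ℕ) :
    ‖trunc q S ∘L T ∘L trunc p S'‖ ≤ ‖T‖ :=
  (norm_left_le _ S).trans (norm_right_le T S')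

lemma tt (S S' : Set ℕ) (h : S ⊆ S') (x : lp E p) : trunc p S (trunc p S' x) = trunc p S x := by
  have := trunc_comp_of_subset (E := E) p h
  exact congrArg (fun f : lp E p →L[ℂ] lp E p => f x) this

lemma tt' (S S' : Set ℕ) (h : S ⊆ S') (x : lp E p) : trunc p S' (trunc p S x) = trunc p S x := by
  have := trunc_comp_of_subset' (E := E) p h
  exact congrArg (fun f : lp E p →L[ℂ] lp E p => f x) this

lemma norm_mono (T : lp E p →L[ℂ] lp F q) {A A' B B' : Set ℕ} (hA : A ⊆ A') (hB : B ⊆ B') :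
    ‖trunc q A ∘L T ∘L trunc p B‖ ≤ ‖trunc q A' ∘L T ∘L trunc p B'‖ := by
  have h : trunc q A ∘L T ∘L trunc p B =
      trunc q A ∘L (trunc q A' ∘L T ∘L trunc p B') ∘L trunc p B := by
    refine ContinuousLinearMap.ext fun x => ?_
    change trunc q A (T (trunc p B x)) =
      trunc q A (trunc q A' (T (trunc p B' (trunc p B x))))
    rw [tt A A' hA, tt' B B' hB]
  rw [h]
  exact norm_both_le _ _ _

lemma norm_mono_left (T : lp E p →L[ℂ] lp F q) {A A' : Set ℕ} (hA : A ⊆ A') (B : Set ℕ) :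
    ‖trunc q A ∘L T ∘L trunc p B‖ ≤ ‖trunc q A' ∘L T‖ := by
  have h : trunc q A ∘L T ∘L trunc p B = trunc q A ∘L (trunc q A' ∘L T) ∘L trunc p B := by
    refine ContinuousLinearMap.ext fun x => ?_
    change trunc q A (T (trunc p B x)) = trunc q A (trunc q A' (T (trunc p B x)))
    rw [tt A A' hA]
  rw [h]
  exact norm_both_le _ _ _

lemma norm_mono_right (T : lp E p →L[ℂ] lp F q) (A : Set ℕ) {B B' : Set ℕ} (hB : B ⊆ B') :
    ‖trunc q A ∘L T ∘L trunc p B‖ ≤ ‖T ∘L trunc p B'‖ := by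
  have h : trunc q A ∘L T ∘L trunc p B = trunc q A ∘L (T ∘L trunc p B') ∘L trunc p B := by
    refine ContinuousLinearMap.ext fun x => ?_
    change trunc q A (T (trunc p B x)) = trunc q A (T (trunc p B' (trunc p B x)))
    rw [tt' B B' hB]
  rw [h]
  exact norm_both_le _ _ _

lemma bN_nonneg (N : ℕ → ℕ) (T : lp E p →L[ℂ] lp F q) (i j : ℕ) : 0 ≤ bN N T i j :=
  norm_nonneg _

/-- the finitely supported part -/
lemma near_row (c : ℝ) (hc : 0 ≤ c) (i : ℕ) :
    Summable (fun j => if nearDiag (i, j) then c else 0) ∧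
      ∑' j, (if nearDiag (i, j) then c else 0) ≤ 3 * c := by
  have h0 : ∀ j ∉ Finset.Icc (i - 1) (i + 1), (if nearDiag (i, j) then c else 0) = 0 := by
    intro j hj
    rw [if_neg]
    intro hn
    apply hj
    rw [Finset.mem_Icc]
    obtain ⟨h1, h2⟩ := hn
    simp only at h1 h2
    omega
  refine ⟨summable_of_ne_finset_zero h0, ?_⟩
  rw [tsum_eq_sum h0]
  calc ∑ j ∈ Finset.Icc (i - 1) (i + 1), (if nearDiag (i, j) then c else 0)
      ≤ ∑ _j ∈ Finset.Icc (i - 1) (i + 1), c := by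
        refine Finset.sum_le_sum fun j _ => ?_
        split_ifs
        · exact le_rfl
        · exact hc
    _ = ((Finset.Icc (i - 1) (i + 1)).card : ℝ) * c := by rw [Finset.sum_const, nsmul_eq_mul]
    _ ≤ 3 * c := by
        refine mul_le_mul_of_nonneg_right ?_ hc
        have : (Finset.Icc (i - 1) (i + 1)).card ≤ 3 := by
          rw [Nat.card_Icc]
          omega
        exact_mod_cast this

lemma nearDiag_swap (i j : ℕ) : nearDiag (i, j) ↔ nearDiag (j, i) := by
  unfold nearDiag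
  exact and_comm

/-- bound for a matrix dominated by a near-diagonal constant plus a rank one geometric matrix:
row sums -/
lemma row_bound (b : ℕ → ℝ) (c K t : ℝ) (hc : 0 ≤ c) (i : ℕ) (h0 : ∀ j, 0 ≤ b j)
    (h : ∀ j, b j ≤ (if nearDiag (i, j) then c else 0) + K * t * (1 / 2) ^ j) :
    Summable b ∧ ∑' j, b j ≤ 3 * c + 2 * K * t := by
  obtain ⟨s1, s2⟩ := near_row c hc i
  have s3 : Summable (fun j : ℕ => K * t * (1 / 2 : ℝ) ^ j) :=
    (summable_geometric_of_lt_one (by norm_num) (by norm_num)).mul_left _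
  have s4 : ∑' j : ℕ, K * t * (1 / 2 : ℝ) ^ j = 2 * K * t := by
    rw [tsum_mul_left, tsum_geometric_two]
    ring
  have s5 : Summable b := Summable.of_nonneg_of_le h0 h (s1.add s3)
  refine ⟨s5, ?_⟩
  calc ∑' j, b j ≤ ∑' j, ((if nearDiag (i, j) then c else 0) + K * t * (1 / 2) ^ j) :=
        s5.tsum_le_tsum h (s1.add s3)
    _ = ∑' j, (if nearDiag (i, j) then c else 0) + ∑' j : ℕ, K * t * (1 / 2) ^ j :=
        s1.tsum_add s3
    _ ≤ 3 * c + 2 * K * t := by rw [s4]; linarith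

theorem blk : BlkStmt := by
  intro p q _ _ E F _ _ _ _ T N m hN hN0 h1 h2
  set K : ℝ := 4 + ‖T‖ * 4 ^ m with hK
  have hK0 : 0 ≤ K := by positivity
  have hquarter : (1 / 4 : ℝ) = (1 / 2) * (1 / 2) := by norm_num
  -- off-diagonal bound
  have hgeo : ∀ i j M : ℕ, i + j ≤ 2 * M → (1 / 4 : ℝ) ^ M ≤ (1 / 2) ^ i * (1 / 2) ^ j := by
    intro i j M hM
    rw [← pow_add, hquarter, ← pow_two, ← pow_mul]
    exact pow_le_pow_of_le_one (by norm_num) (by norm_num) hM
  have hbig : ∀ M : ℕ, M ≤ m → ‖T‖ ≤ K * (1 / 4) ^ M := by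
    intro M hM
    have h3 : (1 : ℝ) ≤ 4 ^ m * (1 / 4) ^ M := by
      rw [one_div, inv_pow, ← div_eq_mul_inv, le_div_iff₀ (by positivity), one_mul]
      exact pow_le_pow_right₀ (by norm_num) hM
    calc ‖T‖ = ‖T‖ * 1 := (mul_one _).symm
      _ ≤ ‖T‖ * (4 ^ m * (1 / 4) ^ M) := mul_le_mul_of_nonneg_left h3 (norm_nonneg _)
      _ = (‖T‖ * 4 ^ m) * (1 / 4) ^ M := by ring
      _ ≤ K * (1 / 4) ^ M := by
          refine mul_le_mul_of_nonneg_right ?_ (by positivity)
          rw [hK]; linarith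
  have hsmall : ∀ M : ℕ, (1 / 4 : ℝ) ^ M ≤ K * (1 / 4) ^ (M + 1) := by
    intro M
    rw [pow_succ]
    have : (4 : ℝ) ≤ K := by rw [hK]; linarith [show 0 ≤ ‖T‖ * 4 ^ m by positivity]
    nlinarith [show (0 : ℝ) < (1 / 4) ^ M by positivity]
  have hoff : ∀ i j, ¬ nearDiag (i, j) → bN N T i j ≤ K * (1 / 2) ^ i * (1 / 2) ^ j := by
    intro i j hij
    unfold nearDiag at hij
    simp only at hij
    rcases le_or_gt i j with hle | hlt
    · -- j ≥ i + 2
      have hj : i + 2 ≤ j := by omega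
      obtain ⟨k, rfl⟩ : ∃ k, j = k + 1 := ⟨j - 1, by omega⟩
      have h3 : (1 / 4 : ℝ) ^ (k + 1) ≤ (1 / 2) ^ i * (1 / 2) ^ (k + 1) :=
        hgeo i (k + 1) (k + 1) (by omega)
      have h4 : bN N T i (k + 1) ≤ K * (1 / 4) ^ (k + 1) := by
        rcases le_or_gt m k with hmk | hmk
        · refine le_trans ?_ (hsmall k)
          refine le_trans ?_ (h2 k hmk)
          refine norm_mono T ?_ ?_
          · rintro n ⟨_, hn⟩
            exact hn.trans_le (hN.monotone (by omega))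
          · rintro n ⟨hn, _⟩
            exact hn
        · exact (norm_both_le T _ _).trans (hbig _ (by omega))
      calc bN N T i (k + 1) ≤ K * (1 / 4) ^ (k + 1) := h4
        _ ≤ K * ((1 / 2) ^ i * (1 / 2) ^ (k + 1)) := mul_le_mul_of_nonneg_left h3 hK0
        _ = K * (1 / 2) ^ i * (1 / 2) ^ (k + 1) := by ring
    · have hj : j + 2 ≤ i := by omega
      obtain ⟨k, rfl⟩ : ∃ k, i = k + 1 := ⟨i - 1, by omega⟩
      have h3 : (1 / 4 : ℝ) ^ (k + 1) ≤ (1 / 2) ^ (k + 1) * (1 / 2) ^ j :=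
        hgeo (k + 1) j (k + 1) (by omega)
      have h4 : bN N T (k + 1) j ≤ K * (1 / 4) ^ (k + 1) := by
        rcases le_or_gt m k with hmk | hmk
        · refine le_trans ?_ (hsmall k)
          refine le_trans ?_ (h1 k hmk)
          refine norm_mono T ?_ ?_
          · rintro n ⟨hn, _⟩
            exact hn
          · rintro n ⟨_, hn⟩
            exact hn.trans_le (hN.monotone (by omega))
        · exact (norm_both_le T _ _).trans (hbig _ (by omega))
      calc bN N T (k + 1) j ≤ K * (1 / 4) ^ (k + 1) := h4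
        _ ≤ K * ((1 / 2) ^ (k + 1) * (1 / 2) ^ j) := mul_le_mul_of_nonneg_left h3 hK0
        _ = K * (1 / 2) ^ (k + 1) * (1 / 2) ^ j := by ring
  -- a general row and column estimate
  have hrow : ∀ (i : ℕ) (c : ℝ), 0 ≤ c → (∀ j, bN N T i j ≤ c ∨ ¬ nearDiag (i, j)) →
      Summable (bN N T i) ∧ ∑' j, bN N T i j ≤ 3 * c + 2 * K * (1 / 2) ^ i := by
    intro i c hc h
    refine row_bound _ c K _ hc i (fun j => bN_nonneg _ _ _ _) fun j => ?_
    by_cases hd : nearDiag (i, j)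
    · rw [if_pos hd]
      rcases h j with h' | h'
      · have : 0 ≤ K * (1 / 2) ^ i * (1 / 2) ^ j := by positivity
        linarith
      · exact absurd hd h'
    · rw [if_neg hd, zero_add]
      exact hoff i j hd
  have hcol : ∀ (j : ℕ) (c : ℝ), 0 ≤ c → (∀ i, bN N T i j ≤ c ∨ ¬ nearDiag (i, j)) →
      Summable (fun i => bN N T i j) ∧ ∑' i, bN N T i j ≤ 3 * c + 2 * K * (1 / 2) ^ j := by
    intro j c hc h
    refine row_bound _ c K _ hc j (fun i => bN_nonneg _ _ _ _) fun i => ?_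
    by_cases hd : nearDiag (i, j)
    · rw [if_pos ((nearDiag_swap i j).1 hd)]
      rcases h i with h' | h'
      · have : 0 ≤ K * (1 / 2) ^ j * (1 / 2) ^ i := by positivity
        linarith
      · exact absurd hd h'
    · rw [if_neg (fun h' => hd ((nearDiag_swap i j).2 h')), zero_add]
      refine (hoff i j hd).trans (le_of_eq ?_)
      ring
  have hhalf : ∀ i : ℕ, (1 / 2 : ℝ) ^ i ≤ 1 := fun i =>
    pow_le_one₀ (by norm_num) (by norm_num)
  refine ⟨⟨⟨3 * ‖T‖ + 2 * K, fun i => ?_, fun j => ?_⟩, ?_⟩, ?_⟩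
  · obtain ⟨s1, s2⟩ := hrow i ‖T‖ (norm_nonneg _) fun j => Or.inl (norm_both_le T _ _)
    refine ⟨s1, s2.trans ?_⟩
    nlinarith [hhalf i, hK0]
  · obtain ⟨s1, s2⟩ := hcol j ‖T‖ (norm_nonneg _) fun i => Or.inl (norm_both_le T _ _)
    refine ⟨s1, s2.trans ?_⟩
    nlinarith [hhalf j, hK0]
  · have s1 : Summable (fun i : ℕ => (1 / 2 : ℝ) ^ i) :=
      summable_geometric_of_lt_one (by norm_num) (by norm_num)
    have s2 : Summable (fun x : ℕ × ℕ => (1 / 2 : ℝ) ^ x.1 * (1 / 2 : ℝ) ^ x.2) :=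
      s1.mul_of_nonneg s1 (fun _ => by positivity) (fun _ => by positivity)
    refine Summable.of_nonneg_of_le ?_ ?_ (s2.mul_left K)
    · intro x
      split_ifs
      · exact le_rfl
      · exact bN_nonneg _ _ _ _
    · intro x
      split_ifs with hx
      · positivity
      · refine (hoff x.1 x.2 hx).trans (le_of_eq ?_)
        ring
  · intro h3 ε hε
    have ht : Filter.Tendsto (fun k : ℕ => (24 + 2 * K) * (1 / 2 : ℝ) ^ k) Filter.atTop (nhds 0) := by
      have := (tendsto_pow_atTop_nhds_zero_of_lt_one (r := (1 / 2 : ℝ)) (by norm_num)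
        (by norm_num)).const_mul (24 + 2 * K)
      rwa [mul_zero] at this
    obtain ⟨k₀, hk₀⟩ := (Filter.eventually_atTop.1 (ht.eventually (ge_mem_nhds hε)))
    have hfour : ∀ k : ℕ, (1 / 4 : ℝ) ^ k ≤ 2 * (1 / 2) ^ (k + 1) * 1 := by
      intro k
      rw [pow_succ]
      have : (1 / 4 : ℝ) ^ k ≤ (1 / 2) ^ k := pow_le_pow_left₀ (by norm_num) (by norm_num) k
      linarith
    refine ⟨max k₀ (m + 1), fun i hi => ?_, fun j hj => ?_⟩
    · obtain ⟨k, rfl⟩ : ∃ k, i = k + 1 := ⟨i - 1, by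
        have := le_of_max_le_right hi
        omega⟩
      have hmk : m ≤ k := by
        have := le_of_max_le_right hi
        omega
      have h4 : ∀ j, bN N T (k + 1) j ≤ (1 / 4) ^ k := by
        intro j
        refine le_trans ?_ (h3 k hmk).1
        refine norm_mono_left T ?_ _
        rintro n ⟨hn, _⟩
        exact hn
      obtain ⟨_, s2⟩ := hrow (k + 1) ((1 / 4) ^ k) (by positivity) fun j => Or.inl (h4 j)
      refine s2.trans (le_trans ?_ (hk₀ (k + 1) (le_of_max_le_left hi)))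
      nlinarith [hfour k, show (0 : ℝ) < (1 / 2) ^ (k + 1) by positivity]
    · obtain ⟨k, rfl⟩ : ∃ k, j = k + 1 := ⟨j - 1, by
        have := le_of_max_le_right hj
        omega⟩
      have hmk : m ≤ k := by
        have := le_of_max_le_right hj
        omega
      have h4 : ∀ i, bN N T i (k + 1) ≤ (1 / 4) ^ k := by
        intro i
        refine le_trans ?_ (h3 k hmk).2
        refine norm_mono_right T _ ?_
        rintro n ⟨hn, _⟩
        exact hn
      obtain ⟨_, s2⟩ := hcol (k + 1) ((1 / 4) ^ k) (by positivity) fun i => Or.inl (h4 i)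
      refine s2.trans (le_trans ?_ (hk₀ (k + 1) (le_of_max_le_left hj)))
      nlinarith [hfour k, show (0 : ℝ) < (1 / 2) ^ (k + 1) by positivity]

end blocks

end Pool.Agent.H41.BDFP
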